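import Mathlib

/-!
# Project EJ: two facts on functions on a half open interval
-/

open Set Filter Topology MeasureTheory Metric

set_option autoImplicit false

namespace Pool.Agent.Y907.EJ

/-- functions with bounded derivative extend continuously to the end of the interval -/
theorem lip_end {f F : ℝ → ℝ} {C T : ℝ} (hC : 0 ≤ C)
    (hf : ∀ t ∈ Ico 0 T, HasDerivWithinAt f (F t) (Ico 0 T) t) (hF : ∀ t ∈ Ico 0 T, |F t| ≤ C) :
    ∃ g : ℝ → ℝ, Continuous g ∧ (∀ t ∈ Ico 0 T, g t = f t) ∧ IntegrableOn F (Ioo 0 T) ∧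
      ∀ t ∈ Icc 0 T, g t = g 0 + ∫ τ in (0 : ℝ)..t, F τ := by
  have h1 : LipschitzOnWith ⟨C, hC⟩ f (Ico 0 T) := by
    refine LipschitzOnWith.of_dist_le_mul fun x hx y hy => ?_
    have h2 := Convex.norm_image_sub_le_of_norm_hasDerivWithin_le (f := f) (f' := F) (C := C)
      hf (fun t ht => by rw [Real.norm_eq_abs]; exact hF t ht) (convex_Ico 0 T) hy hx
    rw [dist_eq_norm, dist_eq_norm]
    exact h2
  obtain ⟨g, hg, hgf⟩ := h1.extend_real
  have hgc : Continuous g := hg.continuous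
  have hd : ∀ t ∈ Ioo 0 T, HasDerivAt g (F t) t := by
    intro t ht
    have h2 : HasDerivAt f (F t) t :=
      (hf t ⟨ht.1.le, ht.2⟩).hasDerivAt (Ico_mem_nhds ht.1 ht.2)
    refine h2.congr_of_eventuallyEq ?_
    filter_upwards [Ico_mem_nhds ht.1 ht.2] with y hy
    exact (hgf hy).symm
  have hint : IntegrableOn F (Ioo 0 T) := by
    have h2 : IntegrableOn (deriv g) (Ioo 0 T) := by
      refine Measure.integrableOn_of_bounded (M := C) (by simp) ?_ ?_
      · exact (measurable_deriv g).aestronglyMeasurable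
      · refine (ae_restrict_iff' measurableSet_Ioo).2 (Eventually.of_forall fun t ht => ?_)
        rw [(hd t ht).deriv, Real.norm_eq_abs]
        exact hF t ⟨ht.1.le, ht.2⟩
    exact h2.congr_fun (fun t ht => (hd t ht).deriv) measurableSet_Ioo
  refine ⟨g, hgc, fun t ht => (hgf ht).symm, hint, fun t ht => ?_⟩
  have h3 := intervalIntegral.integral_eq_sub_of_hasDerivAt_of_le (f := g) (f' := F) ht.1
    hgc.continuousOn (fun x hx => hd x ⟨hx.1, hx.2.trans_le ht.2⟩) (by
      rw [intervalIntegrable_iff_integrableOn_Ioo_of_le ht.1]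
      exact hint.mono_set (Ioo_subset_Ioo_right ht.2))
  rw [h3]
  ring

/-- the energy at the end of the interval -/
theorem mon_end {E d : ℝ → ℝ} {c T η : ℝ} (hT : 0 < T) (hc : 0 < c)
    (hE : ∀ t ∈ Ico 0 T, HasDerivWithinAt E (-(c * d t)) (Ico 0 T) t)
    (hd : ∀ t ∈ Ico 0 T, 0 ≤ d t) (h0 : E 0 = 1) (hη : ∀ t ∈ Ico 0 T, 1 - η ≤ E t) :
    IntegrableOn d (Ioo 0 T) ∧ (∀ t ∈ Ico 0 T, E t + c * (∫ τ in (0 : ℝ)..t, d τ) = 1) ∧
      c * (∫ τ in (0 : ℝ)..T, d τ) ≤ η ∧ ∀ t ∈ Ico 0 T, E t ≤ 1 := by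
  have hz : (0 : ℝ) ∈ Ico 0 T := ⟨le_rfl, hT⟩
  have hEc : ContinuousOn E (Ico 0 T) := fun t ht => (hE t ht).continuousWithinAt
  have hanti : AntitoneOn E (Ico 0 T) := by
    refine antitoneOn_of_hasDerivWithinAt_nonpos (f' := fun t => -(c * d t)) (convex_Ico 0 T)
      hEc ?_ ?_
    · intro t ht
      rw [interior_Ico] at ht ⊢
      exact (hE t ⟨ht.1.le, ht.2⟩).mono Ioo_subset_Ico_self
    · intro t ht
      rw [interior_Ico] at ht
      have := mul_nonneg hc.le (hd t ⟨ht.1.le, ht.2⟩)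
      linarith
  have hle : ∀ t ∈ Ico 0 T, E t ≤ 1 := fun t ht => h0 ▸ hanti hz ht ht.1
  have hlim := AntitoneOn.tendsto_nhdsWithin_Ioo_left (f := E) (nonempty_Ioo.2 hT)
    (hanti.mono Ioo_subset_Ico_self) (by
      refine ⟨1 - η, ?_⟩
      rintro _ ⟨t, ht, rfl⟩
      exact hη t ⟨ht.1.le, ht.2⟩)
  obtain ⟨l, hl⟩ : ∃ l, Tendsto E (𝓝[<] T) (𝓝 l) := ⟨_, hlim⟩
  obtain ⟨G, hG⟩ : ∃ G : ℝ → ℝ, G = fun t => if t < T then E t else l := ⟨_, rfl⟩
  have hGE : ∀ t, t < T → G t = E t := fun t ht => by rw [hG]; exact if_pos ht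
  have hGT : G T = l := by rw [hG]; exact if_neg (lt_irrefl T)
  have hGc : ContinuousOn G (Icc 0 T) := by
    intro t ht
    rcases lt_or_eq_of_le ht.2 with h | h
    · have h1 : ContinuousWithinAt E (Icc 0 T) t := by
        refine (hEc t ⟨ht.1, h⟩).mono_of_mem_nhdsWithin ?_
        rw [mem_nhdsWithin]
        exact ⟨Iio T, isOpen_Iio, h, fun y hy => ⟨hy.2.1, hy.1⟩⟩
      refine h1.congr_of_eventuallyEq ?_ (hGE t h)
      have h2 : Iio T ∈ 𝓝[Icc 0 T] t := mem_nhdsWithin_of_mem_nhds (Iio_mem_nhds h)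
      filter_upwards [h2] with y hy
      exact hGE y hy
    · subst h
      have h1 : ContinuousWithinAt G (Iio t) t := by
        rw [ContinuousWithinAt, hGT]
        refine hl.congr' ?_
        filter_upwards [self_mem_nhdsWithin] with y hy
        exact (hGE y hy).symm
      exact (continuousWithinAt_Iio_iff_Iic.1 h1).mono Icc_subset_Iic_self
  have hGd : ∀ t ∈ Ioo 0 T, HasDerivAt G (-(c * d t)) t := by
    intro t ht
    have h2 : HasDerivAt E (-(c * d t)) t :=
      (hE t ⟨ht.1.le, ht.2⟩).hasDerivAt (Ico_mem_nhds ht.1 ht.2)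
    refine h2.congr_of_eventuallyEq ?_
    filter_upwards [Iio_mem_nhds ht.2] with y hy
    exact hGE y hy
  have hint : IntegrableOn d (Ioo 0 T) := by
    have h1 := intervalIntegral.integrableOn_deriv_of_nonneg (g := fun t => -(c⁻¹ * G t))
      (g' := d) (a := 0) (b := T) ?_ ?_ ?_
    · exact h1.mono_set Ioo_subset_Ioc_self
    · exact (hGc.const_smul c⁻¹).neg
    · intro t ht
      have h2 := ((hGd t ht).const_mul c⁻¹).neg
      refine h2.congr_deriv ?_
      field_simp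
    · intro t ht
      exact hd t ⟨ht.1.le, ht.2⟩
  have key : ∀ t ∈ Icc 0 T, G t + c * (∫ τ in (0 : ℝ)..t, d τ) = 1 := by
    intro t ht
    have h3 := intervalIntegral.integral_eq_sub_of_hasDerivAt_of_le (f := G)
      (f' := fun τ => -(c * d τ)) ht.1 (hGc.mono (Icc_subset_Icc_right ht.2))
      (fun x hx => hGd x ⟨hx.1, hx.2.trans_le ht.2⟩) (by
        rw [intervalIntegrable_iff_integrableOn_Ioo_of_le ht.1]
        exact ((hint.mono_set (Ioo_subset_Ioo_right ht.2)).const_mul c).neg)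
    rw [intervalIntegral.integral_neg, intervalIntegral.integral_const_mul, hGE 0 hT, h0] at h3
    linarith
  refine ⟨hint, fun t ht => ?_, ?_, hle⟩
  · rw [← hGE t ht.2]
    exact key t ⟨ht.1, ht.2.le⟩
  · have h4 := key T ⟨hT.le, le_rfl⟩
    have h5 : 1 - η ≤ l := by
      refine ge_of_tendsto hl ?_
      filter_upwards [Ioo_mem_nhdsLT hT] with y hy
      exact hη y ⟨hy.1.le, hy.2⟩
    rw [hGT] at h4
    linarith

end Pool.Agent.Y907.EJ
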