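import Pool.Agent.Y303.EJ.Stm
import Pool.Agent.Y317.SK.Lin
import Pool.Agent.Y500.SK.Ener
import Pool.Agent.Y907.EJ.EndA

/-!
# Project EJ: from the solution on `[0, T)` to the weak solution on `[0, T]`
-/

open Set Filter Topology MeasureTheory Metric

set_option autoImplicit false

namespace Pool.Agent.Y907.EJ

open Pool.Agent.Y5 (E3)
open Pool.Agent.Y303.SK
open Pool.Agent.Y303.EJ
open Pool.Agent.Y500.SK (inner_toLp ipr_comm lap dirf_eq lap_memLp dvg_zero cpt_of_zero)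

/-- Cauchy-Schwarz -/
theorem ipr_cs {v w : E3 → E3} (hv : MemLp v 2 volume) (hw : MemLp w 2 volume) {a b : ℝ}
    (ha0 : 0 ≤ a) (hb0 : 0 ≤ b) (ha : ipr v v ≤ a ^ 2) (hb : ipr w w ≤ b ^ 2) :
    |ipr v w| ≤ a * b := by
  rw [← inner_toLp v w hv hw]
  refine (abs_real_inner_le_norm _ _).trans ?_
  have h1 : ‖hv.toLp v‖ ≤ a := by
    refine (sq_le_sq₀ (norm_nonneg _) ha0).1 ?_
    rw [← real_inner_self_eq_norm_sq, inner_toLp]
    exact ha
  have h2 : ‖hw.toLp w‖ ≤ b := by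
    refine (sq_le_sq₀ (norm_nonneg _) hb0).1 ?_
    rw [← real_inner_self_eq_norm_sq, inner_toLp]
    exact hb
  gcongr

/-- antisymmetry of the trilinear form -/
theorem adv_anti2 {u v w : E3 → E3} (hu : ContDiff ℝ 1 u) (hd : ∀ x, dvg u x = 0)
    (hv : ContDiff ℝ 1 v) (hw : ContDiff ℝ 1 w) (hwc : HasCompactSupport w) :
    adv u v w = -adv u w v := by
  have huc := hu.continuous
  have hvf : Continuous (fderiv ℝ v) := hv.continuous_fderiv (by simp)
  have hwf : Continuous (fderiv ℝ w) := hw.continuous_fderiv (by simp)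
  have hvc := hv.continuous
  have hwcc := hw.continuous
  have hg : ContDiff ℝ 1 (fun x => inner ℝ (v x) (w x)) := hv.inner ℝ hw
  have hw0 : ∀ x, x ∉ tsupport w → w x = 0 := fun x hx => image_eq_zero_of_notMem_tsupport hx
  have hw1 : ∀ x, x ∉ tsupport w → fderiv ℝ w x = 0 := fun x hx =>
    image_eq_zero_of_notMem_tsupport fun h2 => hx (tsupport_fderiv_subset ℝ h2)
  have hgs : HasCompactSupport (fun x => inner ℝ (v x) (w x)) :=
    HasCompactSupport.intro hwc fun x hx => by rw [hw0 x hx]; simp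
  have h0 := Pool.Agent.Y317.SK.div0' hu hd hg hgs
  have h1 : ∀ x, fderiv ℝ (fun x => inner ℝ (v x) (w x)) x (u x) =
      inner ℝ (fderiv ℝ v x (u x)) (w x) + inner ℝ (fderiv ℝ w x (u x)) (v x) := by
    intro x
    rw [fderiv_inner_apply ℝ (hv.differentiable (by simp) x) (hw.differentiable (by simp) x),
      add_comm, real_inner_comm (v x)]
  simp only [h1] at h0
  rw [integral_add] at h0
  · unfold adv
    linarith
  · refine Pool.Agent.Y317.SK.intg (K := tsupport w) (by fun_prop) hwc fun x hx => ?_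
    rw [hw0 x hx]; simp
  · refine Pool.Agent.Y317.SK.intg (K := tsupport w) (by fun_prop) hwc fun x hx => ?_
    rw [hw1 x hx]; simp

theorem adv_bd {u f : E3 → E3} {K : ℝ} (hu : MemLp u 2 volume) (hK : ∀ x, ‖fderiv ℝ f x‖ ≤ K) :
    |adv u f u| ≤ K * ipr u u := by
  unfold adv ipr
  rw [← integral_const_mul, ← Real.norm_eq_abs]
  have hi : Integrable (fun x => inner ℝ (u x) (u x)) := by
    simp only [real_inner_self_eq_norm_sq]
    exact hu.integrable_norm_pow two_ne_zero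
  refine norm_integral_le_of_norm_le (hi.const_mul K) (Eventually.of_forall fun x => ?_)
  calc ‖inner ℝ (fderiv ℝ f x (u x)) (u x)‖ ≤ ‖fderiv ℝ f x (u x)‖ * ‖u x‖ :=
        norm_inner_le_norm (𝕜 := ℝ) _ _
    _ ≤ (‖fderiv ℝ f x‖ * ‖u x‖) * ‖u x‖ := by
        gcongr
        exact ContinuousLinearMap.le_opNorm _ _
    _ ≤ (K * ‖u x‖) * ‖u x‖ := by
        gcongr
        exact hK x
    _ = K * inner ℝ (u x) (u x) := by
        rw [real_inner_self_eq_norm_sq]
        ring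

theorem dirf_comm (v w : E3 → E3) : dirf v w = dirf w v := by
  unfold dirf
  refine integral_congr_ae (Eventually.of_forall fun x => ?_)
  simp only
  exact Finset.sum_congr rfl fun i _ => real_inner_comm _ _

theorem dirf_nonneg (v : E3 → E3) : 0 ≤ dirf v v := by
  unfold dirf
  exact integral_nonneg fun x => Finset.sum_nonneg fun i _ => real_inner_self_nonneg

theorem ipr_nonneg (v : E3 → E3) : 0 ≤ ipr v v := by
  unfold ipr
  exact integral_nonneg fun x => real_inner_self_nonneg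

/-- the coefficients have bounded derivatives -/
theorem coef_bd {Ω : Set E3} (ν : ℝ) {ι : Type} {e : ι → E3 → E3} {σ : ι → ι} {s : ι → ℝ}
    (hb : Bornology.IsBounded Ω) (hS : SkewD Ω e σ s) (i : ι) :
    ∃ C : ℝ, 0 ≤ C ∧ ∀ u : E3 → E3, ContDiff ℝ 2 u → (∀ x ∉ Ω, u x = 0) →
      (∀ x ∈ Ω, dvg u x = 0) → InH Ω u → ipr u u ≤ 1 →
      |s i * ipr u (e (σ i)) - ν * dirf u (e i) - adv u u (e i)| ≤ C := by
  have hce : ∀ j, ContDiff ℝ 2 (e j) := fun j =>
    (hS.field j).smooth.of_le (by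
      change ((2 : ℕ∞) : WithTop ℕ∞) ≤ ((⊤ : ℕ∞) : WithTop ℕ∞)
      exact_mod_cast le_top)
  have hL := lap_memLp (hce i) (hS.field i).cpt
  obtain ⟨K, hK⟩ := ((hS.field i).cpt.fderiv (𝕜 := ℝ)).exists_bound_of_continuous
    ((hS.field i).smooth.continuous_fderiv (by simp))
  have hK0 : 0 ≤ K := (norm_nonneg _).trans (hK 0)
  refine ⟨|s i| * 1 + |ν| * (√(ipr (lap (e i)) (lap (e i)))) + K, by positivity, ?_⟩
  intro u hu hz hd hH hn
  have hu1 : ContDiff ℝ 1 u := hu.of_le (by norm_num)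
  have hc : HasCompactSupport u := cpt_of_zero hb hz
  have hdv := dvg_zero hu1 hz hd
  have h1 : |ipr u (e (σ i))| ≤ 1 := by
    have := ipr_cs hH.1 (Pool.Agent.Y500.SK.CS.memLp (hS.field (σ i))) (a := 1) (b := 1)
      zero_le_one zero_le_one (by rw [one_pow]; exact hn)
      (by rw [one_pow]; exact ((hS.orth _ _).1 rfl).le)
    rwa [mul_one] at this
  have h2 : |dirf u (e i)| ≤ √(ipr (lap (e i)) (lap (e i))) := by
    rw [dirf_comm, dirf_eq (e i) u (hce i) hu1 hc, abs_neg]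
    have := ipr_cs hL hH.1 (a := √(ipr (lap (e i)) (lap (e i)))) (b := 1)
      (Real.sqrt_nonneg _) zero_le_one (by rw [Real.sq_sqrt (ipr_nonneg _)])
      (by rw [one_pow]; exact hn)
    rwa [mul_one] at this
  have h3 : |adv u u (e i)| ≤ K := by
    rw [adv_anti2 hu1 hdv hu1 ((hce i).of_le (by norm_num)) (hS.field i).cpt, abs_neg]
    refine (adv_bd hH.1 hK).trans ?_
    calc K * ipr u u ≤ K * 1 := by gcongr
      _ = K := mul_one K
  calc |s i * ipr u (e (σ i)) - ν * dirf u (e i) - adv u u (e i)|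
      ≤ |s i * ipr u (e (σ i)) - ν * dirf u (e i)| + |adv u u (e i)| := abs_sub _ _
    _ ≤ (|s i * ipr u (e (σ i))| + |ν * dirf u (e i)|) + |adv u u (e i)| := by
        gcongr
        exact abs_sub _ _
    _ ≤ (|s i| * 1 + |ν| * √(ipr (lap (e i)) (lap (e i)))) + K := by
        rw [abs_mul, abs_mul]
        gcongr

theorem t_END (hrf : S_RF) (hwc : S_WC) : S_END := by
  intro Ω ν ι e σ s T η u y hΩ hb hν hT hι hS hu hu2 hE hE0 hEη hy hys hyη hη0 hη
  have hz : (0 : ℝ) ∈ Ico 0 T := ⟨le_rfl, hT⟩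
  -- the energy
  obtain ⟨hdi, hen, hent, hle⟩ := mon_end (E := fun t => ipr (u t) (u t))
    (d := fun t => dirf (u t) (u t)) (c := 2 * ν) (η := η) hT (by positivity)
    (fun t ht => (hE t ht).congr_deriv (by ring)) (fun t _ => dirf_nonneg _) hE0 hEη
  -- the coefficients
  have hco : ∀ i, ∃ g : ℝ → ℝ, Continuous g ∧ (∀ t ∈ Ico 0 T, g t = ipr (u t) (e i)) ∧
      IntegrableOn (fun τ => s i * ipr (u τ) (e (σ i)) - ν * dirf (u τ) (e i) -
        adv (u τ) (u τ) (e i)) (Ioo 0 T) ∧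
      ∀ t ∈ Icc 0 T, g t = g 0 + ∫ τ in (0 : ℝ)..t, (s i * ipr (u τ) (e (σ i)) -
        ν * dirf (u τ) (e i) - adv (u τ) (u τ) (e i)) := by
    intro i
    obtain ⟨C, hC0, hC⟩ := coef_bd ν hb hS i
    exact lip_end hC0 (hu.eqn i) fun t ht => hC (u t) (hu2 t ht) (hu.zero t ht) (hu.dv t ht)
      (hu.inH t ht) (hle t ht)
  choose g hgc hgu hgi hge using hco
  have hgT : ∀ i, |g i T| ≤ y i := by
    intro i
    obtain ⟨r, hr, hry⟩ := hy i
    have h1 : Tendsto (fun t => |g i t|) (𝓝[<] T) (𝓝 |g i T|) :=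
      ((hgc i).abs.tendsto T).mono_left nhdsWithin_le_nhds
    refine le_of_tendsto h1 ?_
    filter_upwards [Ioo_mem_nhdsLT hr.2] with t ht
    rw [hgu i t ⟨hr.1.trans ht.1.le, ht.2⟩]
    exact hry t ⟨ht.1.le, ht.2⟩
  have hsq : ∀ i, g i T ^ 2 ≤ y i ^ 2 := fun i => by
    rw [← sq_abs (g i T)]
    exact pow_le_pow_left₀ (abs_nonneg _) (hgT i) 2
  have hsum : Summable (fun i => g i T ^ 2) :=
    Summable.of_nonneg_of_le (fun i => sq_nonneg _) hsq hys
  obtain ⟨w, hwH, hwe, hww⟩ := hrf Ω ι e σ s (fun i => g i T) hΩ hb hS hι hsum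
  have hwη : ipr w w ≤ η := by
    rw [hww]
    exact (hsum.tsum_le_tsum hsq hys).trans hyη
  obtain ⟨v, hv⟩ : ∃ v : ℝ → E3 → E3, v = fun t => if t < T then u t else w := ⟨_, rfl⟩
  have hvu : ∀ t, t < T → v t = u t := fun t ht => by rw [hv]; exact if_pos ht
  have hvT : v T = w := by rw [hv]; exact if_neg (lt_irrefl T)
  have hvH : ∀ t ∈ Icc 0 T, InH Ω (v t) := by
    intro t ht
    rcases lt_or_eq_of_le ht.2 with h | h
    · rw [hvu t h]
      exact hu.inH t ⟨ht.1, h⟩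
    · rw [h, hvT]
      exact hwH
  have hvn : ∀ t ∈ Icc 0 T, ipr (v t) (v t) ≤ 1 := by
    intro t ht
    rcases lt_or_eq_of_le ht.2 with h | h
    · rw [hvu t h]
      exact hle t ⟨ht.1, h⟩
    · rw [h, hvT]
      linarith
  have hvg : ∀ i, ∀ t ∈ Icc 0 T, ipr (v t) (e i) = g i t := by
    intro i t ht
    rcases lt_or_eq_of_le ht.2 with h | h
    · rw [hvu t h, hgu i t ⟨ht.1, h⟩]
    · rw [h, hvT, hwe]
  have hIcongr : ∀ (Φ : (E3 → E3) → ℝ) (t : ℝ), t ∈ Icc 0 T →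
      ∫ τ in (0 : ℝ)..t, Φ (v τ) = ∫ τ in (0 : ℝ)..t, Φ (u τ) := by
    intro Φ t ht
    rw [intervalIntegral.integral_of_le ht.1, intervalIntegral.integral_of_le ht.1,
      integral_Ioc_eq_integral_Ioo, integral_Ioc_eq_integral_Ioo]
    refine setIntegral_congr_fun measurableSet_Ioo fun τ hτ => ?_
    rw [hvu τ (hτ.2.trans_le ht.2)]
  have hend : ipr (v T) (v T) + 2 * ν * (∫ τ in (0 : ℝ)..T, dirf (v τ) (v τ)) ≤ 2 * η := by
    rw [hvT, hIcongr (fun f => dirf f f) T ⟨hT.le, le_rfl⟩]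
    linarith
  have heq : ∀ t ∈ Ico 0 T,
      ipr (v t) (v t) + 2 * ν * (∫ τ in (0 : ℝ)..t, dirf (v τ) (v τ)) = 1 := by
    intro t ht
    rw [hvu t ht.2, hIcongr (fun f => dirf f f) t ⟨ht.1, ht.2.le⟩]
    exact hen t ht
  refine ⟨v, fun t ht => hvu t ht.2, ⟨hvH, ?_, ?_, ?_, ?_⟩, heq, hend⟩
  · refine (hwc Ω ι e σ s hΩ hb hS hι).2 T 1 v (fun t ht => ⟨hvH t ht, hvn t ht⟩) fun i => ?_
    exact (hgc i).continuousOn.congr (hvg i)
  · refine hdi.congr_fun (fun t ht => ?_) measurableSet_Ioo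
    simp only
    rw [hvu t ht.2]
  · intro i t ht
    rw [hvg i t ht, hvg i 0 ⟨le_rfl, hT.le⟩,
      hIcongr (fun f => s i * ipr f (e (σ i)) - ν * dirf f (e i) - adv f f (e i)) t ht]
    exact hge i t ht
  · intro t ht
    rw [hvu 0 hT, hE0]
    rcases lt_or_eq_of_le ht.2 with h | h
    · exact (heq t ⟨ht.1, h⟩).le
    · rw [h]
      linarith

end Pool.Agent.Y907.EJ
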